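import Mathlib
import Pool.Agent.MP_2a37ed_ag.Final

/-! Modules induced from an epimorphic subgroup are finite-dimensional: the order of vanishing of
a section drops by a bounded amount along the complete curve and its translates. -/

set_option autoImplicit false

namespace Pool.Agent.MP_2a37ed_ag.EF

open Matrix Polynomial Filter Topology Asymptotics
open scoped Pointwise

noncomputable section

variable {n N : ℕ} {G H : Subgroup (Gl n)} {ρ : Gl n → Matrix (Fin N) (Fin N) ℂ}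

/-- curves along which the regular functions are differentiable at zero -/
def Df (γ : ℂ → Gl n) : Prop := ∀ F ∈ Reg n, DifferentiableAt ℂ (fun s => F (γ s)) 0

theorem df_of {γ : ℂ → Gl n} (h : ∀ i j, DifferentiableAt ℂ (fun s => (γ s).val i j) 0)
    (h' : ∀ i j, DifferentiableAt ℂ (fun s => ((γ s)⁻¹).val i j) 0) : Df γ := fun _ hF =>
  reg_induction (Q := fun F => DifferentiableAt ℂ (fun s => F (γ s)) 0) h h'
    (fun c => differentiableAt_const c) (fun _ _ _ _ a b => a.add b) (fun _ _ _ _ a b => a.mul b) hF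

theorem Df.mul {γ δ : ℂ → Gl n} (h : Df γ) (h' : Df δ) : Df fun s => γ s * δ s := by
  refine df_of (fun i j => ?_) fun i j => ?_
  · simp only [Units.val_mul, Matrix.mul_apply]
    exact .fun_sum fun k _ => (h _ (reg_entry i k)).mul (h' _ (reg_entry k j))
  · simp only [_root_.mul_inv_rev, Units.val_mul, Matrix.mul_apply]
    exact .fun_sum fun k _ => (h' _ (reg_inv_entry i k)).mul (h _ (reg_inv_entry k j))

theorem df_const (x : Gl n) : Df fun _ => x := fun _ _ => differentiableAt_const _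

theorem df_poly (a : GL (Fin n) ℂ[X]) (t l : ℂ) : Df fun s => gm (evp (t + l * s)) a :=
  fun F hF => by
    obtain ⟨p, hp⟩ := reg_ev a hF
    simp only [← hp, evp_apply]
    exact (p.differentiable _).comp 0 (by fun_prop)

/-- vanishing to order `M` at `x` along all curves in `G` -/
def Ord (G : Subgroup (Gl n)) (x : Gl n) (M : ℕ) (f : Gl n → Fin N → ℂ) : Prop :=
  ∀ γ : ℂ → Gl n, (∀ s, γ s ∈ G) → γ 0 = x → Df γ → ∀ i,
    (fun s => f (γ s) i) =O[𝓝[≠] 0] fun s => s ^ M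

/-- sections of the induced module -/
def Wd (G H : Subgroup (Gl n)) (ρ : Gl n → Matrix (Fin N) (Fin N) ℂ) (f : Gl n → Fin N → ℂ) :
    Prop :=
  (∀ i, (fun g => f g i) ∈ Reg n) ∧ ∀ g ∈ G, ∀ h ∈ H, f (g * h) = ρ h *ᵥ f g

theorem Ord.zero {x : Gl n} {f : Gl n → Fin N → ℂ} (h : Ord G x 1 f) (hx : x ∈ G) : f x = 0 := by
  funext i
  have h1 := (h (fun _ => x) (fun _ => hx) rfl (df_const x) i).trans_tendsto
    (tendsto_nhdsWithin_of_tendsto_nhds (Continuous.tendsto' (by fun_prop) 0 0 (by simp)))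
  exact tendsto_const_nhds_iff.1 h1

theorem Ord.right {x h : Gl n} {M : ℕ} {f : Gl n → Fin N → ℂ} (hHG : H ≤ G) (hf : Wd G H ρ f)
    (ho : Ord G x M f) (hh : h ∈ H) : Ord G (x * h) M f := by
  intro γ h1 h2 h3 i
  have h4 : ∀ s, γ s * h⁻¹ ∈ G := fun s => G.mul_mem (h1 s) (G.inv_mem (hHG hh))
  have e : ∀ s, f (γ s) i = ∑ j, ρ h i j * f (γ s * h⁻¹) j := fun s => by
    have := hf.2 _ (h4 s) h hh
    rw [inv_mul_cancel_right] at this
    rw [this]; rfl
  simp only [e]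
  exact .fun_sum fun j _ =>
    (ho _ h4 (by simp [h2]) (h3.mul (df_const _)) j).const_mul_left _

theorem interp {d : ℕ} {p : ℂ[X]} (hp : p.natDegree ≤ d) (t u s : ℂ) (hs : s ≠ 0) :
    p.eval u = ∑ k : Fin (d + 1), p.eval (t + ((k : ℕ) : ℂ) * s) *
      (Lagrange.basis Finset.univ (fun k : Fin (d + 1) => ((k : ℕ) : ℂ)) k).eval ((u - t) / s) := by
  have h1 : (p.comp (C t + X * C s)).degree < (Finset.univ : Finset (Fin (d + 1))).card := by
    refine degree_le_natDegree.trans_lt ?_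
    have h2 : (C t + X * C s : ℂ[X]).natDegree ≤ 1 := by compute_degree
    have h3 := natDegree_comp_le (p := p) (q := C t + X * C s)
    have h4 := Nat.mul_le_mul hp h2
    rw [Finset.card_univ, Fintype.card_fin]
    exact_mod_cast (by omega : _ < d + 1)
  have h2 := congrArg (eval ((u - t) / s)) (Lagrange.eq_interpolate
    (v := fun k : Fin (d + 1) => ((k : ℕ) : ℂ))
    (fun a _ b _ h => Fin.ext (Nat.cast_injective h)) h1)
  simpa [eval_finsetSum, mul_div_cancel₀ _ hs, mul_comm s] using h2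

theorem big {d : ℕ} {l : ℂ[X]} (hl : l.natDegree < d + 1) (c : ℂ) :
    (fun s : ℂ => l.eval (c / s)) =O[𝓝[≠] 0] fun s => (s ^ d)⁻¹ := by
  have h1 : (fun s : ℂ => ∑ j ∈ Finset.range (d + 1), l.coeff j * c ^ j * s ^ (d - j))
      =O[𝓝[≠] 0] fun _ => (1 : ℂ) :=
    (tendsto_nhdsWithin_of_tendsto_nhds (Continuous.tendsto (by fun_prop) 0)).isBigO_one ℂ
  refine (h1.mul (isBigO_refl (fun s : ℂ => (s ^ d)⁻¹) _)).congr' ?_ (.of_forall fun s => by simp)
  filter_upwards [self_mem_nhdsWithin] with s hs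
  rw [eval_eq_sum_range' hl, Finset.sum_mul]
  refine Finset.sum_congr rfl fun j hj => ?_
  have hs' : s ≠ 0 := hs
  rw [pow_sub₀ _ hs' (by have := Finset.mem_range.1 hj; omega), div_pow]
  field_simp

/-- the order drops by at most `d` along a curve on which the translates have degree at most `d` -/
theorem Ord.step {x : Gl n} {M d : ℕ} {f : Gl n → Fin N → ℂ} {a : GL (Fin n) ℂ[X]}
    (ha : ∀ s, gm (evp s) a ∈ G) (hd : ∀ g ∈ G, ∀ i, ∃ p : ℂ[X], p.natDegree ≤ d ∧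
      ∀ s, f (g * gm (evp s) a) i = p.eval s) (t u : ℂ)
    (ho : Ord G x (M + d) f) : Ord G (x * ((gm (evp t) a)⁻¹ * gm (evp u) a)) M f := by
  intro γ h1 h2 h3 i
  have h4 : ∀ s, γ s * (gm (evp u) a)⁻¹ ∈ G := fun s => G.mul_mem (h1 s) (G.inv_mem (ha u))
  have h5 : ∀ k : Fin (d + 1), (fun s => f (γ s * (gm (evp u) a)⁻¹ *
      gm (evp (t + ((k : ℕ) : ℂ) * s)) a) i) =O[𝓝[≠] 0] fun s => s ^ (M + d) := fun k =>
    ho _ (fun s => G.mul_mem (h4 s) (ha _)) (by simp [h2, mul_assoc]) ((h3.mul (df_const _)).mul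
      (df_poly a t _)) i
  refine (IsBigO.fun_sum (s := Finset.univ) fun k _ => (h5 k).mul (big (d := d)
    (l := Lagrange.basis Finset.univ (fun k : Fin (d + 1) => ((k : ℕ) : ℂ)) k) ?_ (u - t))).congr'
      ?_ ?_
  · rw [Lagrange.natDegree_basis (fun a _ b _ h => Fin.ext (Nat.cast_injective h))
      (Finset.mem_univ _)]
    simp
  · filter_upwards [self_mem_nhdsWithin] with s hs
    obtain ⟨p, hp, e⟩ := hd _ (h4 s) i
    have := e u
    rw [inv_mul_cancel_right] at this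
    rw [this, interp hp t u s hs]
    simp only [e]
  · filter_upwards [self_mem_nhdsWithin] with s hs
    have hs' : s ≠ 0 := hs
    rw [pow_add, mul_inv_cancel_right₀ (pow_ne_zero _ hs')]

theorem deg (hρ : ∀ i j, (fun g => ρ g i j) ∈ Reg n) {b : GL (Fin n) La}
    {c0 ci : GL (Fin n) ℂ[X]} (hb : ∀ τ, gm (ev τ) b ∈ H) (hF : Fac b c0 ci)
    (h0 : ∀ s, gm (evp s) c0 ∈ G) : ∃ d : ℕ, ∀ f, Wd G H ρ f → ∀ g ∈ G, ∀ i, ∃ p : ℂ[X],
      p.natDegree ≤ d ∧ ∀ s, f (g * gm (evp s) ci) i = p.eval s := by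
  obtain ⟨r, hr⟩ := reg_ev_mat b⁻¹ hρ
  obtain ⟨d, hd⟩ := exists_bound fun q : Fin N × Fin N => r q.1 q.2
  refine ⟨d, fun f hf g hg i => ?_⟩
  obtain ⟨p, hp⟩ := reg_ev ci (reg_mul_left (hf.1 i) g)
  choose q hq using fun j => reg_ev c0 (reg_mul_left (hf.1 j) g)
  refine ⟨p, ?_, fun s => by rw [← evp_apply, hp]⟩
  have e : LaurentPolynomial.invert (toLaurent p) = ∑ j, r i j * toLaurent (q j) := by
    refine ev_ext fun τ => ?_
    have h1 := hf.2 _ (G.mul_mem hg (h0 τ)) _ (H.inv_mem (hb τ))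
    rw [mul_assoc, hF.eq τ, mul_inv_cancel_right, ← hF.eq τ, ← map_inv, ← hr] at h1
    simp only [ev_invert, ev_toLaurent, map_sum, map_mul, ← evp_apply, hp, hq, h1]
    rfl
  have h2 : Dn (-d + 0) (LaurentPolynomial.invert (toLaurent p)) :=
    e ▸ dn_sum _ fun j _ => (hd (i, j)).2.mul (libl_dn_toLaurent _)
  refine natDegree_le_iff_coeff_eq_zero.2 fun k hk => ?_
  have h3 := h2 (-k) (by omega)
  rw [LaurentPolynomial.invert_apply, neg_neg, LaurentPolynomial.coeff_toLaurent] at h3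
  exact (Finsupp.mapDomain_apply Nat.castEmbedding.injective _ k).symm.trans h3

/-- irreducible sets -/
def Irr (S : Set (Gl n)) : Prop := ∀ F ∈ Reg n, ∀ F' ∈ Reg n, (∀ s ∈ S, F s * F' s = 0) →
  (∀ s ∈ S, F s = 0) ∨ ∀ s ∈ S, F' s = 0

theorem Irr.mul {S T : Set (Gl n)} (hS : Irr S) (hT : Irr T) : Irr (S * T) := by
  intro F hF F' hF' h
  by_contra hc
  push Not at hc
  obtain ⟨⟨_, ⟨s, hs, t, ht, rfl⟩, h1⟩, _, ⟨s', hs', t', ht', rfl⟩, h2⟩ := hc
  rcases hT _ (reg_mul_left hF s) _ (reg_mul_left hF' s') (fun y hy => by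
    rcases hS _ (reg_mul_right hF y) _ (reg_mul_right hF' y)
      (fun z hz => h _ (Set.mul_mem_mul hz hy)) with h3 | h3
    · simp [h3 s hs]
    · simp [h3 s' hs']) with h3 | h3
  · exact h1 (h3 t ht)
  · exact h2 (h3 t' ht')

theorem irr_range {γ : ℂ → Gl n} (h : ∀ F ∈ Reg n, Differentiable ℂ fun s => F (γ s)) :
    Irr (Set.range γ) := by
  intro F hF F' hF' h0
  have a := fun F hF => (h F hF).differentiableOn.analyticOnNhd (s := Set.univ) isOpen_univ
  rcases (a F hF).eq_zero_or_eq_zero_of_mul_eq_zero (a F' hF') (fun s _ => h0 _ ⟨s, rfl⟩)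
    isPreconnected_univ with h1 | h1
  · exact .inl (by rintro _ ⟨s, rfl⟩; exact h1 s trivial)
  · exact .inr (by rintro _ ⟨s, rfl⟩; exact h1 s trivial)

/-- irreducible sets of translations that lower the order by a bounded amount -/
structure Fam (G H : Subgroup (Gl n)) (ρ : Gl n → Matrix (Fin N) (Fin N) ℂ) (S : Set (Gl n)) :
    Prop where
  one : 1 ∈ S
  sub : ∀ s ∈ S, s ∈ G
  irr : Irr S
  stp : ∃ e : ℕ, ∀ f, Wd G H ρ f → ∀ x M, Ord G x (M + e) f → ∀ t ∈ S, Ord G (x * t) M f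

theorem Fam.mul {S T : Set (Gl n)} (hS : Fam G H ρ S) (hT : Fam G H ρ T) : Fam G H ρ (S * T) := by
  obtain ⟨e, he⟩ := hS.stp
  obtain ⟨e', he'⟩ := hT.stp
  refine ⟨by simpa using Set.mul_mem_mul hS.one hT.one, ?_, hS.irr.mul hT.irr, e' + e, ?_⟩
  · rintro _ ⟨s, hs, t, ht, rfl⟩
    exact G.mul_mem (hS.sub s hs) (hT.sub t ht)
  · rintro f hf x M ho _ ⟨s, hs, t, ht, rfl⟩
    rw [← mul_assoc]
    exact he' f hf _ M (he f hf x _ (by rwa [add_assoc]) s hs) t ht

/-- coordinates -/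
def co (g : Gl n) : (Fin n × Fin n) ⊕ (Fin n × Fin n) → ℂ :=
  Sum.elim (fun ij => g.val ij.1 ij.2) fun ij => (g⁻¹).val ij.1 ij.2

/-- the ideal of a set -/
def idl (S : Set (Gl n)) : Ideal (MvPolynomial ((Fin n × Fin n) ⊕ (Fin n × Fin n)) ℂ) where
  carrier := {p | ∀ s ∈ S, MvPolynomial.eval (co s) p = 0}
  add_mem' hp hq s hs := by rw [map_add, hp s hs, hq s hs, add_zero]
  zero_mem' s _ := map_zero _
  smul_mem' c p hp s hs := by rw [smul_eq_mul, map_mul, hp s hs, mul_zero]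

theorem Fam.prime {S : Set (Gl n)} (h : Fam G H ρ S) : (idl S).IsPrime :=
  ⟨fun e => by simpa using ((Ideal.eq_top_iff_one _).1 e) 1 h.one, fun {p q} hpq =>
    h.irr _ (reg_iff.2 ⟨p, fun _ => rfl⟩) _ (reg_iff.2 ⟨q, fun _ => rfl⟩)
      fun s hs => (map_mul _ p q).symm.trans (hpq s hs)⟩

theorem exists_max (h0 : ∃ S, Fam G H ρ S) : ∃ S, Fam G H ρ S ∧ ∀ T, Fam G H ρ T → ∀ F ∈ Reg n,
    (∀ s ∈ S, F s = 0) → ∀ t ∈ T, ∀ s ∈ S, F (t * s) = 0 := by
  obtain ⟨S, hS, hm⟩ := (InvImage.wf (fun S : Set (Gl n) => (idl S).height)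
    wellFounded_lt).has_min {S | Fam G H ρ S} h0
  refine ⟨S, hS, fun T hT F hF h t ht s hs => ?_⟩
  obtain ⟨p, hp⟩ := reg_iff.1 hF
  have := (hT.mul hS).prime
  have h1 : idl (T * S) ≤ idl S := fun q hq y hy =>
    hq y (by simpa using Set.mul_mem_mul hT.one hy)
  have h2 : idl (T * S) = idl S := by
    by_contra hc
    exact hm _ (hT.mul hS) (Ideal.height_strict_mono_of_isPrime (lt_of_le_of_ne h1 hc))
  have h3 : p ∈ idl (T * S) := h2 ▸ fun y hy => (hp y).symm.trans (h y hy)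
  exact (hp _).trans (h3 _ (Set.mul_mem_mul ht hs))

theorem vanish (hG : Nice G) (hH : Nice H) (hHG : H ≤ G) (hE : Epi G H)
    (hρ : ∀ i j, (fun g => ρ g i j) ∈ Reg n) :
    ∃ M : ℕ, ∀ f, Wd G H ρ f → Ord G 1 M f → ∀ g ∈ G, f g = 0 := by
  obtain ⟨b, c0, ci, hb, hF, hc, hK⟩ := core_stmt n G H hG hH hHG hE
  obtain ⟨d, hd⟩ := deg hρ hb hF fun s => (hc s).2
  have f1 : ∀ A ∈ lie H, Fam G H ρ (Set.range fun c : ℂ => expU (c • A)) := fun A hA =>
    ⟨⟨0, by simp⟩, by rintro _ ⟨c, rfl⟩; exact hHG ((hH.mem A).1 hA c),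
      irr_range fun F hF c => by
        simpa using (hasDerivAt_reg_expU hF 1 A c).differentiableAt,
      0, by rintro f hf x M ho _ ⟨c, rfl⟩; exact ho.right hHG hf ((hH.mem A).1 hA c)⟩
  have fd : ∀ F ∈ Reg n, Differentiable ℂ fun s => F (gm (evp s) ci) := fun F hF => by
    obtain ⟨p, hp⟩ := reg_ev ci hF
    simp only [← hp, evp_apply]
    exact p.differentiable
  have f2 : Fam G H ρ (Set.range fun s : ℂ => gm (evp s) ci) :=
    ⟨⟨0, hF.one⟩, by rintro _ ⟨c, rfl⟩; exact (hc c).1, irr_range fd, d, by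
      rintro f hf x M ho _ ⟨c, rfl⟩
      simpa [hF.one] using ho.step (fun s => (hc s).1) (hd f hf) 0 c⟩
  have f3 : Fam G H ρ (Set.range fun s : ℂ => (gm (evp s) ci)⁻¹) :=
    ⟨⟨0, by simp [hF.one]⟩, by rintro _ ⟨c, rfl⟩; exact G.inv_mem (hc c).1,
      irr_range fun F hF => fd _ (reg_inv hF), d, by
      rintro f hf x M ho _ ⟨c, rfl⟩
      simpa [hF.one] using ho.step (fun s => (hc s).1) (hd f hf) c 0⟩
  obtain ⟨S, hS, hm⟩ := exists_max ⟨_, f2⟩
  let K : Subgroup (Gl n) :=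
    { carrier := {g | g ∈ G ∧ ∀ F ∈ Reg n, (∀ s ∈ S, F s = 0) → ∀ s ∈ S,
        F (g * s) = 0 ∧ F (g⁻¹ * s) = 0}
      mul_mem' := fun {x y} hx hy => ⟨G.mul_mem hx.1 hy.1, fun F hF h s hs =>
        ⟨by rw [mul_assoc]
            exact (hy.2 _ (reg_mul_left hF x) (fun z hz => (hx.2 F hF h z hz).1) s hs).1,
         by rw [_root_.mul_inv_rev, mul_assoc]
            exact (hx.2 _ (reg_mul_left hF y⁻¹) (fun z hz => (hy.2 F hF h z hz).2) s hs).2⟩⟩
      one_mem' := ⟨G.one_mem, fun F _ h s hs => by simp [h s hs]⟩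
      inv_mem' := fun {x} hx => ⟨G.inv_mem hx.1, fun F hF h s hs => by
        rw [inv_inv]; exact (hx.2 F hF h s hs).symm⟩ }
  have hKc : Clo K := fun g hg => ⟨hG.clo g fun F hF h => hg F hF fun x hx => h x hx.1,
    fun F hF h s hs => ⟨hg _ (reg_mul_right hF s) fun x hx => (hx.2 F hF h s hs).1,
      hg _ (reg_inv (reg_mul_right hF s)) fun x hx => (hx.2 F hF h s hs).2⟩⟩
  have hHK : H ≤ K := hH.gen.trans ((Subgroup.closure_le K).2 (by
    rintro _ ⟨A, hA, rfl⟩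
    exact ⟨(f1 A hA).sub _ ⟨1, by simp⟩, fun F hF h s hs =>
      ⟨hm _ (f1 A hA) F hF h _ ⟨1, by simp⟩ s hs,
        hm _ (f1 A hA) F hF h _ ⟨-1, by simp [expU_inv]⟩ s hs⟩⟩))
  have hGK := hK K hKc hHK (fun _ h => h.1) fun c => ⟨(hc c).1, fun F hF h s hs =>
    ⟨hm _ f2 F hF h _ ⟨c, rfl⟩ s hs, hm _ f3 F hF h _ ⟨c, rfl⟩ s hs⟩⟩
  obtain ⟨e, he⟩ := hS.stp
  refine ⟨1 + e, fun f hf ho g hg => funext fun i => ?_⟩
  simpa using ((hGK hg).2 _ (hf.1 i) (fun s hs => congrFun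
    (Ord.zero (by simpa using he f hf 1 1 ho s hs) (hS.sub s hs)) i) 1 hS.one).1

theorem taylor (n M : ℕ) : ∃ T : Submodule ℂ (Gl n → ℂ), FiniteDimensional ℂ T ∧ ∀ F ∈ Reg n,
    ∃ t ∈ T, ∀ γ : ℂ → Gl n, γ 0 = 1 → Df γ →
      (fun s => F (γ s) - t (γ s)) =O[𝓝[≠] 0] fun s => s ^ M := by
  let E : MvPolynomial ((Fin n × Fin n) ⊕ (Fin n × Fin n)) ℂ →ₐ[ℂ] (Gl n → ℂ) :=
    MvPolynomial.aeval fun k g => co g k - co 1 k
  have hco : ∀ k, (fun g : Gl n => co g k) ∈ Reg n := by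
    rintro (k | k)
    exacts [reg_entry _ _, reg_inv_entry _ _]
  refine ⟨(MvPolynomial.restrictTotalDegree _ ℂ M).map E.toLinearMap, inferInstance,
    fun F hF => ?_⟩
  obtain ⟨q, rfl⟩ : F ∈ E.range := by
    refine Algebra.adjoin_le (S := E.range) ?_ hF
    rintro _ ⟨i, j, rfl | rfl⟩
    · exact ⟨MvPolynomial.X (.inl (i, j)) + MvPolynomial.C (co 1 (.inl (i, j))), by
        funext g; simp [E, co]⟩
    · exact ⟨MvPolynomial.X (.inr (i, j)) + MvPolynomial.C (co 1 (.inr (i, j))), by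
        funext g; simp [E, co]⟩
  clear hF
  induction q using MvPolynomial.induction_on' with
  | add p q hp hq =>
    obtain ⟨t, ht, h⟩ := hp
    obtain ⟨t', ht', h'⟩ := hq
    exact ⟨t + t', add_mem ht ht', fun γ h0 hγ => ((h γ h0 hγ).add (h' γ h0 hγ)).congr_left
      fun s => by simp; ring⟩
  | monomial m r =>
    by_cases hm : (m.sum fun _ e => e) ≤ M
    · exact ⟨_, ⟨_, (MvPolynomial.mem_restrictTotalDegree _ _ _).2
        ((MvPolynomial.totalDegree_monomial_le m r).trans hm), rfl⟩, fun γ _ _ => by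
          simp [isBigO_zero]⟩
    · refine ⟨0, zero_mem _, fun γ h0 hγ => ?_⟩
      have h1 : ∀ k, (fun s => co (γ s) k - co 1 k) =O[𝓝 0] fun s : ℂ => s := fun k => by
        simpa [h0] using (hγ _ (hco k)).isBigO_sub
      have h2 := (IsBigO.finsetProd (s := m.support) fun k _ => (h1 k).pow (m k)).const_mul_left r
      simp only [Finset.prod_pow_eq_pow_sum] at h2
      refine ((h2.trans (isLittleO_pow_pow (not_le.1 hm)).isBigO).mono nhdsWithin_le_nhds).congr_left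
        fun s => ?_
      simp [E, MvPolynomial.aeval_monomial, Finsupp.prod]

theorem fin_of {X : Type} [AddCommGroup X] [Module ℂ X] {W T P : Submodule ℂ X}
    [FiniteDimensional ℂ T] (h : ∀ w ∈ W, w ∈ P → w = 0) (h' : ∀ w ∈ W, ∃ t ∈ T, w - t ∈ P) :
    FiniteDimensional ℂ W := by
  refine .of_injective ((P.mkQ ∘ₗ W.subtype).codRestrict (T.map P.mkQ) fun w => ?_) ?_
  · obtain ⟨t, ht, e⟩ := h' w w.2
    exact ⟨t, ht, ((Submodule.Quotient.eq P).2 e).symm⟩
  · rw [injective_iff_map_eq_zero]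
    exact fun w hw => Subtype.ext (h w w.2 ((Submodule.Quotient.mk_eq_zero P).1
      (congrArg Subtype.val hw)))

theorem main (hG : Nice G) (hH : Nice H) (hHG : H ≤ G) (hE : Epi G H)
    (hρ : ∀ i j, (fun g => ρ g i j) ∈ Reg n) (W : Submodule ℂ (G → Fin N → ℂ))
    (hW : ∀ w ∈ W, ∃ f, Wd G H ρ f ∧ ∀ g : G, w g = f g) : FiniteDimensional ℂ W := by
  obtain ⟨M, hM⟩ := vanish hG hH hHG hE hρ
  obtain ⟨T, hT, ht⟩ := taylor n M
  let L : Fin N → (Gl n → ℂ) →ₗ[ℂ] (G → Fin N → ℂ) := fun i =>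
    { toFun := fun F g => Pi.single i (F g)
      map_add' := fun F F' => funext fun g => Pi.single_add i _ _
      map_smul' := fun c F => funext fun g => Pi.single_smul i c _ }
  let P : Submodule ℂ (G → Fin N → ℂ) :=
    { carrier := {w | ∀ γ : ℂ → G, γ 0 = 1 → Df (fun s => (γ s).1) → ∀ i,
        (fun s => w (γ s) i) =O[𝓝[≠] 0] fun s => s ^ M}
      add_mem' := fun h h' γ a b i => (h γ a b i).add (h' γ a b i)
      zero_mem' := fun _ _ _ _ => isBigO_zero _ _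
      smul_mem' := fun c _ h γ a b i => (h γ a b i).const_mul_left c }
  refine fin_of (T := ⨆ i, T.map (L i)) (P := P) (fun w hw hP => ?_) fun w hw => ?_
  · obtain ⟨f, hf, e⟩ := hW w hw
    refine funext fun g => (e g).trans (hM f hf (fun γ a b c i => ?_) g g.2)
    simpa only [e] using hP (fun s => ⟨γ s, a s⟩) (Subtype.ext b) c i
  · obtain ⟨f, hf, e⟩ := hW w hw
    choose t t1 t2 using fun i => ht _ (hf.1 i)
    refine ⟨∑ i, L i (t i), Submodule.sum_mem _ fun i _ =>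
      Submodule.mem_iSup_of_mem i ⟨_, t1 i, rfl⟩, fun γ a b i => ?_⟩
    refine (t2 i _ (congrArg Subtype.val a) b).congr_left fun s => ?_
    simp [e, L, Finset.sum_apply, Pi.single_apply]

theorem ef (hG : IsAlg G) (hH : IsAlg H) (hHG : H ≤ G) (cG : IsConnected (G : Set (Gl n)))
    (cH : IsConnected (H : Set (Gl n)))
    (hE : ∀ F : Gl n → ℂ, IsRegular F → (∀ g ∈ G, ∀ h ∈ H, F (g * h) = F g) → ∀ g ∈ G, F g = F 1)
    (σ : H →* GL (Fin N) ℂ)
    (hσ : ∀ i j, ∃ F : Gl n → ℂ, IsRegular F ∧ ∀ h : H, (σ h).val i j = F (h : Gl n)) :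
    FiniteDimensional ℂ (Submodule.span ℂ {f : G → Fin N → ℂ |
      (∀ i, ∃ F : Gl n → ℂ, IsRegular F ∧ ∀ g : G, f g i = F (g : Gl n)) ∧
      ∀ (g : G) (h : H), f (g * Subgroup.inclusion hHG h) = ((σ h)⁻¹).val *ᵥ f g}) := by
  choose R h1 h2 using hσ
  have nice := fun {K : Subgroup (Gl n)} (a : IsAlg K) b =>
    nice_of lie_stmt (rep_of lie_stmt) (vn_of lie_stmt) (clo_iff.2 a) b
  refine main (ρ := fun g => Matrix.of fun i j => R i j g⁻¹) (nice hG cG) (nice hH cH) hHG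
    (fun F hF => hE F (reg_iff.1 hF)) (fun i j => reg_inv (reg_iff.2 (h1 i j))) _ fun w hw => ?_
  induction hw using Submodule.span_induction with
  | mem w hw =>
    choose F a b using hw.1
    refine ⟨fun g i => F i g, ⟨fun i => reg_iff.2 (a i), fun g hg h hh => ?_⟩,
      fun g => funext fun i => b i g⟩
    have e := hw.2 ⟨g, hg⟩ ⟨h, hh⟩
    have e1 : ((σ ⟨h, hh⟩)⁻¹).val = Matrix.of fun i j => R i j h⁻¹ :=
      Matrix.ext fun i j => by rw [← map_inv, h2]; rfl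
    have b' : ∀ x : G, w x = fun i => F i x := fun x => funext fun i => b i x
    rw [e1, b', b'] at e
    exact e
  | zero => exact ⟨0, ⟨fun _ => reg_const 0, fun _ _ _ _ => by simp⟩, fun _ => rfl⟩
  | add x y _ _ hx hy =>
    obtain ⟨f, hf, e⟩ := hx
    obtain ⟨f', hf', e'⟩ := hy
    exact ⟨f + f', ⟨fun i => reg_add (hf.1 i) (hf'.1 i), fun g hg h hh => by
      simp [hf.2 g hg h hh, hf'.2 g hg h hh, mulVec_add]⟩, fun g => by simp [e, e']⟩
  | smul c x _ hx =>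
    obtain ⟨f, hf, e⟩ := hx
    exact ⟨c • f, ⟨fun i => reg_mul (reg_const c) (hf.1 i), fun g hg h hh => by
      simp [hf.2 g hg h hh, mulVec_smul]⟩, fun g => by simp [e]⟩

end

end Pool.Agent.MP_2a37ed_ag.EF
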